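import Pool.Agent.Helper53.Pq.Goals
import Pool.Agent.Helper88.NO.D12
import Pool.Agent.Helper96.NO.E1
import Pool.Agent.Helper13.Proj.PacketD
import Pool.Agent.Helper85.Proj.PktE

set_option autoImplicit false

/-!
# MP_705522_gt, packet AGVOL: the integrated AM-GM inequality and the volume formula
-/

namespace Pool.Agent.Helper63.Pq

open MeasureTheory Set
open Pool.Agent.Helper28.NO (Lf Ok IsLaw ph hm mu muZ isLaw_ph Lf_scale ph_zero)
open Pool.Agent.Helper7.Proj (Zd Bp projVol phi)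
open Pool.Agent.Helper53.Pq (GAGr GVol)

/-- weighted AM-GM, integrated. -/
theorem gAGr : GAGr := by
  intro ι S lam h hl hsum _ _ hint hint0
  have h1 : ∑ i ∈ S, lam i * ∫ t in Ioi (0 : ℝ), (1 - |h i t| ^ (1 / lam i)) / t ^ 2 =
      ∫ t in Ioi (0 : ℝ), ∑ i ∈ S, lam i * ((1 - |h i t| ^ (1 / lam i)) / t ^ 2) := by
    rw [integral_finsetSum S (fun i hi => (hint i hi).const_mul (lam i))]
    refine Finset.sum_congr rfl fun i _ => ?_
    rw [integral_const_mul]
  rw [h1]
  refine setIntegral_mono_on (integrable_finsetSum S fun i hi => (hint i hi).const_mul (lam i))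
    hint0 measurableSet_Ioi fun t ht => ?_
  have ht2 : (0 : ℝ) ≤ t ^ 2 := sq_nonneg t
  have h2 : ∑ i ∈ S, lam i * ((1 - |h i t| ^ (1 / lam i)) / t ^ 2) =
      (1 - ∑ i ∈ S, lam i * |h i t| ^ (1 / lam i)) / t ^ 2 := by
    simp_rw [← mul_div_assoc]
    rw [← Finset.sum_div]
    congr 1
    simp_rw [mul_sub, mul_one]
    rw [Finset.sum_sub_distrib, hsum]
  rw [h2]
  refine div_le_div_of_nonneg_right ?_ ht2
  have h3 : ∏ i ∈ S, h i t ≤ ∏ i ∈ S, |h i t| :=
    (le_abs_self _).trans (by rw [Finset.abs_prod])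
  have h4 : ∏ i ∈ S, |h i t| = ∏ i ∈ S, (|h i t| ^ (1 / lam i)) ^ lam i := by
    refine Finset.prod_congr rfl fun i hi => ?_
    rw [← Real.rpow_mul (abs_nonneg _), one_div_mul_cancel (hl i hi).ne', Real.rpow_one]
  have h5 := Real.geom_mean_le_arith_mean_weighted S lam (fun i => |h i t| ^ (1 / lam i))
    (fun i hi => (hl i hi).le) hsum (fun i _ => Real.rpow_nonneg (abs_nonneg _) _)
  rw [← h4] at h5
  linarith

/-- What is used about the law of `|Y|`. -/
theorem mu_facts (q : ℝ) (hq : 2 < q) : IsProbabilityMeasure (mu q) ∧ (∀ᵐ y ∂(mu q), 0 < y) ∧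
    Integrable (fun y : ℝ => y) (mu q) ∧ ∫ y, y ∂(mu q) = 1 := by
  obtain ⟨hZ, hprobZ, hposZ, hintZ, hmeanZ, _⟩ := Pool.Agent.Helper88.NO.goalD1 q hq
  have hqZ : 0 < q * Zd q := by positivity
  refine ⟨Measure.isProbabilityMeasure_map (by fun_prop), ?_, ?_, ?_⟩
  · unfold mu
    rw [ae_map_iff (by fun_prop) measurableSet_Ioi]
    filter_upwards [hposZ] with z hz
    exact mul_pos hqZ hz
  · unfold mu
    rw [integrable_map_measure (by fun_prop) (by fun_prop)]
    exact hintZ.const_mul _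
  · unfold mu
    rw [integral_map (by fun_prop) (by fun_prop), integral_const_mul, hmeanZ,
      mul_one_div_cancel hqZ.ne']

theorem Lf_single (q : ℝ) (hq : 2 < q) : Lf (fun t => ph (mu q) (1 * t)) = 1 := by
  obtain ⟨hprob, hpos, hint, hmean⟩ := mu_facts q hq
  rw [(isLaw_ph hint 1).Lf_eq, integral_map (by fun_prop) (by fun_prop)]
  refine Eq.trans (integral_congr_ae ?_) hmean
  filter_upwards [hpos] with y hy
  rw [one_mul, abs_of_pos hy]

/-- Volumes. -/
theorem gVol : GVol := by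
  intro p hp hp2 n
  obtain ⟨C, hC, hE⟩ := Pool.Agent.Helper85.ProjE.pktE p hp hp2 (n + 1) (by omega)
  obtain ⟨C', hC', hD⟩ := Pool.Agent.Helper13.Proj.pktD p hp hp2 (n + 1)
  have hq2 : 2 < p / (p - 1) := by
    rw [lt_div_iff₀ (by linarith)]
    linarith
  set q := p / (p - 1) with hq
  obtain ⟨hprob, hpos, hint, hmean⟩ := mu_facts q hq2
  obtain ⟨hZ, hprobZ, hposZ, hintZ, hmeanZ, hphi⟩ := Pool.Agent.Helper88.NO.goalD1 q hq2
  have hqZ : 0 < q * Zd q := by positivity
  -- relation between ph (mu q) and phi q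
  have hrel : ∀ t, ph (mu q) t = phi q (q * Zd q * t) := by
    intro t
    rw [hphi, ph, mu, integral_map (by fun_prop) (by fun_prop), ph]
    refine integral_congr_ae (Filter.Eventually.of_forall fun z => ?_)
    simp only
    ring_nf
  have hphi0 : phi q 0 = 1 := by rw [hphi]; simp [ph]
  -- main formula
  have hV : ∀ u : EuclideanSpace ℝ (Fin (n + 1)), ‖u‖ = 1 → projVol p (n + 1) u =
      (C * C' * Helper13.Proj.c0 / (q * Zd q)) * Lf (fun t => ∏ i, ph (mu q) (u i * t)) := by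
    intro u hu
    rw [hE u hu, hD]
    have e : Lf (fun t => ∏ i, ph (mu q) (u i * t)) =
        (q * Zd q) * Lf (fun t => ∏ i, phi q (u i * t)) := by
      rw [← Lf_scale (fun t => ∏ i, phi q (u i * t)) hqZ.le (by simp [hphi0])]
      congr 1
      ext t
      refine Finset.prod_congr rfl fun i _ => ?_
      rw [hrel]
      ring_nf
    rw [e]
    have hc0 : Helper13.Proj.c0 ≠ 0 := Helper13.Proj.c0_pos.ne'
    have hqZ' := hqZ.ne'
    unfold Lf
    generalize (∫ t in Ioi (0 : ℝ), (1 - ∏ i, phi q (u i * t)) / t ^ 2) = I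
    generalize Helper13.Proj.c0 = c at *
    generalize q * Zd q = Z at *
    field_simp
  have hunit : ‖(EuclideanSpace.single (0 : Fin (n + 1)) (1 : ℝ))‖ = 1 := by simp
  have h1 := hV _ hunit
  have h2 : Lf (fun t => ∏ i, ph (mu q) ((EuclideanSpace.single (0 : Fin (n + 1)) (1 : ℝ)) i * t))
      = 1 := by
    refine Eq.trans ?_ (Lf_single q hq2)
    congr 1
    ext t
    rw [Finset.prod_eq_single (0 : Fin (n + 1))]
    · simp
    · intro i _ hi
      simp [hi, ph_zero]
    · simp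
  rw [h2, mul_one, Pool.Agent.Helper96.NO.goalE1 p hp n 0] at h1
  intro u hu
  rw [hV u hu, ← h1]

end Pool.Agent.Helper63.Pq
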